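import Mathlib
import Pool.Agent.N89.HX.Stm

/-!
# HX/FCH: the density theorem over `k(t_1, …, t_n)`

Project HX (helper89); this file by helper403.
-/

set_option autoImplicit false

namespace Pool.Agent.N403.HX

open Polynomial Pool.Agent.N89.HX

section general

variable {A A' : Type} [CommRing A] [CommRing A']

/-- the value of a polynomial with integral coefficients -/
noncomputable def az {τ : Type} (g : τ → A) (p : MvPolynomial τ ℤ) : A :=
  MvPolynomial.eval₂ (Int.castRingHom A) g p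

theorem aeval_az {τ : Type} [Algebra ℤ A] (g : τ → A) (p : MvPolynomial τ ℤ) :
    MvPolynomial.aeval g p = az g p := by
  unfold az
  rw [MvPolynomial.aeval_def]
  congr 1
  exact RingHom.ext_int _ _

theorem map_az {τ : Type} (φ : A →+* A') (g : τ → A) (p : MvPolynomial τ ℤ) :
    φ (az g p) = az (fun s => φ (g s)) p := by
  unfold az
  rw [MvPolynomial.eval₂_comp_left]
  congr 1
  exact RingHom.ext_int _ _

theorem ln_map {n : ℕ} (φ : A →+* A') (F : MvPolynomial (Fin n) A) (y v : Fin n → A) :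
    (ln F y v).map φ = ln (MvPolynomial.map φ F) (fun j => φ (y j)) (fun j => φ (v j)) := by
  unfold ln
  rw [MvPolynomial.eval₂_map, ← Polynomial.coe_mapRingHom, MvPolynomial.eval₂_comp_left]
  congr 1
  · ext
    simp
  · ext j
    simp

theorem ln_eval {n : ℕ} (F : MvPolynomial (Fin n) A) (y v : Fin n → A) (x : A) :
    (ln F y v).eval x = MvPolynomial.eval (fun j => y j + x * v j) F := by
  unfold ln
  rw [← Polynomial.coe_evalRingHom, MvPolynomial.eval₂_comp_left]
  show _ = MvPolynomial.eval₂ (RingHom.id A) _ F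
  congr 1
  · ext a
    simp
  · ext j
    simp only [Function.comp_apply, coe_evalRingHom, eval_add, eval_mul, eval_C, eval_X]
    rw [mul_comm]

/-- filtrations -/
theorem filt {S B τ : Type} [CommRing S] [CommRing B] (P : ℕ → B → Prop)
    (h0 : ∀ D, P D 0) (hadd : ∀ D a b, P D a → P D b → P D (a + b))
    (hmul : ∀ D D' a b, P D a → P D' b → P (D + D') (a * b))
    (hmono : ∀ D D' a, D ≤ D' → P D a → P D' a) (h1 : P 0 1) (φ : S →+* B)
    (hφ : ∀ s, P 0 (φ s)) (g : τ → B) (d : ℕ) (hg : ∀ s, P d (g s)) (p : MvPolynomial τ S) :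
    P (p.totalDegree * d) (MvPolynomial.eval₂ φ g p) := by
  classical
  rw [MvPolynomial.eval₂_eq]
  have hsum : ∀ (s : Finset (τ →₀ ℕ)) (F : (τ →₀ ℕ) → B) (D : ℕ), (∀ m ∈ s, P D (F m)) →
      P D (∑ m ∈ s, F m) := by
    intro s F D
    induction s using Finset.induction_on with
    | empty => intro _; simpa using h0 D
    | insert a s ha ih =>
      intro h
      rw [Finset.sum_insert ha]
      exact hadd _ _ _ (h a (Finset.mem_insert_self _ _)) (ih fun m hm =>
        h m (Finset.mem_insert_of_mem hm))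
  have hpow : ∀ (b : B) (m : ℕ), P d b → P (m * d) (b ^ m) := by
    intro b m hb
    induction m with
    | zero => simpa using h1
    | succ m ih =>
      rw [pow_succ, Nat.succ_mul]
      exact hmul _ _ _ _ ih hb
  have hprod : ∀ (s : Finset τ) (m : τ → ℕ), P ((∑ i ∈ s, m i) * d) (∏ i ∈ s, g i ^ m i) := by
    intro s m
    induction s using Finset.induction_on with
    | empty => simpa using h1
    | insert a s ha ih =>
      rw [Finset.prod_insert ha, Finset.sum_insert ha, add_mul]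
      exact hmul _ _ _ _ (hpow _ _ (hg a)) ih
  refine hsum _ _ _ fun m hm => ?_
  have h2 := hmul _ _ _ _ (hφ (p.coeff m)) (hprod m.support m)
  rw [zero_add] at h2
  refine hmono _ _ _ ?_ h2
  refine Nat.mul_le_mul_right _ ?_
  exact MvPolynomial.le_totalDegree hm

/-- degree in `X` and total degree of the coefficients -/
def Fl {k τ : Type} [Field k] (D : ℕ) (p : (MvPolynomial τ k)[X]) : Prop :=
  p.natDegree ≤ D ∧ ∀ j, (p.coeff j).totalDegree ≤ D

section

variable {k τ : Type} [Field k]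

theorem td_sum {ι : Type} (s : Finset ι) (F : ι → MvPolynomial τ k) (D : ℕ)
    (h : ∀ i ∈ s, (F i).totalDegree ≤ D) : (∑ i ∈ s, F i).totalDegree ≤ D :=
  (MvPolynomial.totalDegree_finsetSum s F).trans (Finset.sup_le h)

theorem Fl.zero (D : ℕ) : Fl D (0 : (MvPolynomial τ k)[X]) := by
  refine ⟨by simp, fun j => by simp⟩

theorem Fl.add {D : ℕ} {a b : (MvPolynomial τ k)[X]} (ha : Fl D a) (hb : Fl D b) :
    Fl D (a + b) := by
  refine ⟨(natDegree_add_le _ _).trans (max_le ha.1 hb.1), fun j => ?_⟩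
  rw [coeff_add]
  exact (MvPolynomial.totalDegree_add _ _).trans (max_le (ha.2 j) (hb.2 j))

theorem Fl.mul {D D' : ℕ} {a b : (MvPolynomial τ k)[X]} (ha : Fl D a) (hb : Fl D' b) :
    Fl (D + D') (a * b) := by
  refine ⟨natDegree_mul_le.trans (Nat.add_le_add ha.1 hb.1), fun j => ?_⟩
  rw [coeff_mul]
  refine td_sum _ _ _ fun i _ => ?_
  exact (MvPolynomial.totalDegree_mul _ _).trans (Nat.add_le_add (ha.2 _) (hb.2 _))

theorem Fl.mono {D D' : ℕ} {a : (MvPolynomial τ k)[X]} (h : D ≤ D') (ha : Fl D a) : Fl D' a :=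
  ⟨ha.1.trans h, fun j => (ha.2 j).trans h⟩

theorem Fl.C {D : ℕ} {a : MvPolynomial τ k} (h : a.totalDegree ≤ D) : Fl D (C a) := by
  refine ⟨by simp, fun j => ?_⟩
  rw [coeff_C]
  split_ifs
  · exact h
  · simp

theorem Fl.X {D : ℕ} (h : 1 ≤ D) : Fl D (X : (MvPolynomial τ k)[X]) := by
  refine ⟨natDegree_X_le.trans h, fun j => ?_⟩
  rw [coeff_X]
  split_ifs
  · simp
  · simp

theorem Fl.eval₂ {S σ : Type} [CommRing S] (φ : S →+* (MvPolynomial τ k)[X])
    (hφ : ∀ s, Fl 0 (φ s)) (g : σ → (MvPolynomial τ k)[X]) (d : ℕ) (hg : ∀ s, Fl d (g s))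
    (p : MvPolynomial σ S) : Fl (p.totalDegree * d) (MvPolynomial.eval₂ φ g p) :=
  filt Fl Fl.zero (fun _ _ _ => Fl.add) (fun _ _ _ _ => Fl.mul) (fun _ _ _ => Fl.mono)
    (by simpa using Fl.C (D := 0) (a := (1 : MvPolynomial τ k)) (by simp)) φ hφ g d hg p

theorem td_eval₂ {S σ : Type} [CommRing S] (φ : S →+* MvPolynomial τ k)
    (hφ : ∀ s, (φ s).totalDegree ≤ 0) (g : σ → MvPolynomial τ k) (d : ℕ)
    (hg : ∀ s, (g s).totalDegree ≤ d)
    (p : MvPolynomial σ S) : (MvPolynomial.eval₂ φ g p).totalDegree ≤ p.totalDegree * d :=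
  filt (fun D (a : MvPolynomial τ k) => a.totalDegree ≤ D) (fun _ => by simp)
    (fun _ a b ha hb => (MvPolynomial.totalDegree_add a b).trans (max_le ha hb))
    (fun _ _ a b ha hb => (MvPolynomial.totalDegree_mul a b).trans (Nat.add_le_add ha hb))
    (fun _ _ _ h ha => le_trans ha h) (by simp) φ hφ g d hg p

end

/-- the resolvent as a polynomial with given coefficients -/
theorem rs_bp {e B : ℕ} (R : Fin e.factorial → MvPolynomial (Fin (e + 1) ⊕ Fin e) ℤ)
    (f : Fin (e + 1) → A[X]) (ω : Fin e → A[X])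
    (hB : ∀ i, (az (Sum.elim f ω) (R i)).natDegree ≤ B) :
    rs R f ω = bp (fun i (j : Fin (B + 1)) => (az (Sum.elim f ω) (R i)).coeff j) := by
  unfold rs bp
  refine congrArg (fun t => X ^ e.factorial + t) ?_
  refine Finset.sum_congr rfl fun i _ => ?_
  refine congrArg (fun t => C t * X ^ (i : ℕ)) ?_
  rw [aeval_az, Fin.sum_univ_eq_sum_range (fun j => C ((az (Sum.elim f ω) (R i)).coeff j) *
    X ^ j) (B + 1)]
  exact as_sum_range_C_mul_X_pow' _ (Nat.lt_succ_of_le (hB i))

end general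

section generic

variable {k Ω : Type} [Field k] [Field Ω] [Algebra k Ω] {e n : ℕ}

/-- the coefficients of the polynomial on the generic line -/
noncomputable def GG (f : Fin (e + 1) → MvPolynomial (Fin n) k) (i : Fin (e + 1)) :
    (MvPolynomial (Fin (n + n) ⊕ Fin e) k)[X] :=
  ln (MvPolynomial.map MvPolynomial.C (f i)) (fun j => MvPolynomial.X (Sum.inl (Fin.castAdd n j)))
    (fun j => MvPolynomial.X (Sum.inl (Fin.natAdd n j)))

/-- the coefficients of its resolvent -/
noncomputable def cc (R : Fin e.factorial → MvPolynomial (Fin (e + 1) ⊕ Fin e) ℤ)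
    (f : Fin (e + 1) → MvPolynomial (Fin n) k) (i : Fin e.factorial) :
    (MvPolynomial (Fin (n + n) ⊕ Fin e) k)[X] :=
  az (Sum.elim (GG f) (fun i => C (MvPolynomial.X (Sum.inr i)))) (R i)

theorem GG_fl (f : Fin (e + 1) → MvPolynomial (Fin n) k) {d : ℕ}
    (hf : ∀ i, (f i).totalDegree ≤ d) (i : Fin (e + 1)) : Fl d (GG f i) := by
  unfold GG ln
  rw [MvPolynomial.eval₂_map]
  have h := Fl.eval₂ (k := k) (τ := Fin (n + n) ⊕ Fin e) (C.comp MvPolynomial.C)
    (fun s => Fl.C (by simp)) (fun j => C (MvPolynomial.X (Sum.inl (Fin.castAdd n j))) +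
      C (MvPolynomial.X (Sum.inl (Fin.natAdd n j))) * X) 1 (fun j => by
        refine Fl.add (Fl.C (by simp)) ?_
        refine ⟨?_, fun l => ?_⟩
        · exact (natDegree_C_mul_le _ _).trans natDegree_X_le
        · rw [coeff_C_mul_X]
          split_ifs
          · simp
          · simp) (f i)
  rw [mul_one] at h
  exact h.mono (hf i)

theorem td_int {τ : Type} (s : ℤ) : (s : MvPolynomial τ k).totalDegree ≤ 0 := by
  have h : (s : MvPolynomial τ k) = MvPolynomial.C (s : k) := by simp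
  rw [h, MvPolynomial.totalDegree_C]

theorem cc_fl (R : Fin e.factorial → MvPolynomial (Fin (e + 1) ⊕ Fin e) ℤ)
    (f : Fin (e + 1) → MvPolynomial (Fin n) k) {d : ℕ}
    (hf : ∀ i, (f i).totalDegree ≤ d) (i : Fin e.factorial) :
    Fl ((R i).totalDegree * (d + 1)) (cc R f i) := by
  unfold cc az
  refine Fl.eval₂ _ (fun s => ?_) _ _ (fun s => ?_) _
  · have h : Int.castRingHom (MvPolynomial (Fin (n + n) ⊕ Fin e) k)[X] s =
        C (s : MvPolynomial (Fin (n + n) ⊕ Fin e) k) := by simp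
    rw [h]
    exact Fl.C (td_int s)
  · rcases s with s | s
    · exact (GG_fl f hf s).mono (by omega)
    · exact Fl.C (by simp)

/-- specialisation -/
noncomputable def sp (k : Type) {Ω : Type} [Field k] [Field Ω] [Algebra k Ω] (y v : Fin n → Ω)
    (ω : Fin e → Ω) : MvPolynomial (Fin (n + n) ⊕ Fin e) k →+* Ω :=
  MvPolynomial.eval₂Hom (algebraMap k Ω) (Sum.elim (Fin.append y v) ω)

theorem GG_map (f : Fin (e + 1) → MvPolynomial (Fin n) k) (y v : Fin n → Ω) (ω : Fin e → Ω)
    (i : Fin (e + 1)) :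
    (GG f i).map (sp k y v ω) = ln (MvPolynomial.map (algebraMap k Ω) (f i)) y v := by
  unfold GG
  rw [ln_map, MvPolynomial.map_map]
  have h1 : (sp k y v ω).comp MvPolynomial.C = algebraMap k Ω := by
    ext a
    simp [sp]
  have h2 : (fun j => (sp k y v ω) (MvPolynomial.X (Sum.inl (Fin.castAdd n j)))) = y := by
    funext j
    unfold sp
    rw [MvPolynomial.eval₂Hom_X', Sum.elim_inl, Fin.append_left]
  have h3 : (fun j => (sp k y v ω) (MvPolynomial.X (Sum.inl (Fin.natAdd n j)))) = v := by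
    funext j
    unfold sp
    rw [MvPolynomial.eval₂Hom_X', Sum.elim_inl, Fin.append_right]
  rw [h1, h2, h3]

theorem cc_map (R : Fin e.factorial → MvPolynomial (Fin (e + 1) ⊕ Fin e) ℤ)
    (f : Fin (e + 1) → MvPolynomial (Fin n) k) (y v : Fin n → Ω) (ω : Fin e → Ω)
    (i : Fin e.factorial) : (cc R f i).map (sp k y v ω) = az
      (Sum.elim (fun i => ln (MvPolynomial.map (algebraMap k Ω) (f i)) y v)
        (fun i => C (ω i))) (R i) := by
  unfold cc
  rw [← coe_mapRingHom, map_az]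
  congr 1
  funext s
  rcases s with s | s
  · simp only [Sum.elim_inl, coe_mapRingHom]
    exact GG_map f y v ω s
  · simp only [Sum.elim_inr, coe_mapRingHom, map_C]
    unfold sp
    rw [MvPolynomial.eval₂Hom_X', Sum.elim_inr]

/-- the value of a polynomial in the coefficients of the resolvent -/
noncomputable def dd {B : ℕ} (R : Fin e.factorial → MvPolynomial (Fin (e + 1) ⊕ Fin e) ℤ)
    (f : Fin (e + 1) → MvPolynomial (Fin n) k)
    (Δ : MvPolynomial (Fin e.factorial × Fin (B + 1)) ℤ) :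
    MvPolynomial (Fin (n + n) ⊕ Fin e) k :=
  az (fun ij => (cc R f ij.1).coeff ij.2) Δ

theorem dd_td {B : ℕ} (R : Fin e.factorial → MvPolynomial (Fin (e + 1) ⊕ Fin e) ℤ)
    (f : Fin (e + 1) → MvPolynomial (Fin n) k)
    (Δ : MvPolynomial (Fin e.factorial × Fin (B + 1)) ℤ)
    (hB : ∀ i, Fl B (cc R f i)) : (dd R f Δ).totalDegree ≤ Δ.totalDegree * B := by
  have h1 : ∀ s : ℤ, (Int.castRingHom (MvPolynomial (Fin (n + n) ⊕ Fin e) k) s).totalDegree ≤ 0 := by
    intro s
    rw [eq_intCast]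
    exact td_int s
  have h2 : ∀ s : Fin e.factorial × Fin (B + 1),
      ((cc R f s.1).coeff (s.2 : ℕ)).totalDegree ≤ B := fun s => (hB s.1).2 (s.2 : ℕ)
  exact td_eval₂ _ h1 _ B h2 Δ

theorem irr_iff {B : ℕ} (R : Fin e.factorial → MvPolynomial (Fin (e + 1) ⊕ Fin e) ℤ)
    (f : Fin (e + 1) → MvPolynomial (Fin n) k) {J : Type}
    (Δ : J → MvPolynomial (Fin e.factorial × Fin (B + 1)) ℤ)
    (hΔ : ∀ (h : Fin e.factorial → Fin (B + 1) → Ω),
      Irreducible (bp h) ↔ ∃ j, MvPolynomial.aeval (fun ij => h ij.1 ij.2) (Δ j) ≠ 0)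
    (hB : ∀ i, Fl B (cc R f i)) (y v : Fin n → Ω) (ω : Fin e → Ω) :
    Irreducible (rs R (fun i => ln (MvPolynomial.map (algebraMap k Ω) (f i)) y v)
      (fun i => C (ω i))) ↔ ∃ j, sp k y v ω (dd R f (Δ j)) ≠ 0 := by
  have h1 : ∀ i, (az (Sum.elim (fun i => ln (MvPolynomial.map (algebraMap k Ω) (f i)) y v)
      (fun i => C (ω i))) (R i)).natDegree ≤ B := by
    intro i
    rw [← cc_map]
    exact natDegree_map_le.trans (hB i).1
  rw [rs_bp (B := B) R _ _ h1, hΔ]
  refine exists_congr fun j => ?_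
  unfold dd
  rw [map_az, aeval_az]
  have h : ∀ ij : Fin e.factorial × Fin (B + 1), (az
      (Sum.elim (fun i => ln (MvPolynomial.map (algebraMap k Ω) (f i)) y v)
        (fun i => C (ω i))) (R ij.1)).coeff (ij.2 : ℕ) = sp k y v ω ((cc R f ij.1).coeff ij.2) := by
    intro ij
    rw [← cc_map, coeff_map]
  simp only [h]

end generic

section count

variable {k : Type} [Field k] [Fintype k] {n : ℕ}

/-- the lemma of Schwartz and Zippel over a finite subfield -/
theorem sz {Ω : Type} [Field Ω] [Algebra k Ω] (Q : MvPolynomial (Fin (n + n)) Ω) (hQ : Q ≠ 0) :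
    ∃ Bd : Finset ((Fin n → k) × (Fin n → k)),
      Bd.card * Fintype.card k ≤ Q.totalDegree * Fintype.card k ^ (n + n) ∧
      ∀ p ∉ Bd, MvPolynomial.eval (Fin.append (fun j => algebraMap k Ω (p.1 j))
        (fun j => algebraMap k Ω (p.2 j))) Q ≠ 0 := by
  classical
  have h := MvPolynomial.schwartz_zippel_totalDegree hQ (Finset.univ.image (algebraMap k Ω))
  have hc : (Finset.univ.image (algebraMap k Ω)).card = Fintype.card k := by
    rw [Finset.card_image_of_injective _ (algebraMap k Ω).injective, Finset.card_univ]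
  rw [hc] at h
  refine ⟨Finset.univ.filter fun p => MvPolynomial.eval
    (Fin.append (fun j => algebraMap k Ω (p.1 j)) (fun j => algebraMap k Ω (p.2 j))) Q = 0,
    ?_, fun p hp => ?_⟩
  · have h2 : (Finset.univ.filter fun p : (Fin n → k) × (Fin n → k) => MvPolynomial.eval
        (Fin.append (fun j => algebraMap k Ω (p.1 j)) (fun j => algebraMap k Ω (p.2 j))) Q =
          0).card ≤
        (Finset.filter (fun f => MvPolynomial.eval f Q = 0)
          (Fintype.piFinset fun _ : Fin (n + n) => Finset.univ.image (algebraMap k Ω))).card := by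
      apply Finset.card_le_card_of_injOn (fun p => Fin.append (fun j => algebraMap k Ω (p.1 j))
        (fun j => algebraMap k Ω (p.2 j)))
      · intro p hp
        rw [Finset.mem_coe, Finset.mem_filter] at hp ⊢
        refine ⟨?_, hp.2⟩
        rw [Fintype.mem_piFinset]
        intro i
        refine Fin.addCases (fun j => ?_) (fun j => ?_) i
        · simp only [Fin.append_left]
          exact Finset.mem_image_of_mem _ (Finset.mem_univ _)
        · simp only [Fin.append_right]
          exact Finset.mem_image_of_mem _ (Finset.mem_univ _)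
      · intro p _ p' _ hpp
        ext j
        · have := congrFun hpp (Fin.castAdd n j)
          simp only [Fin.append_left] at this
          exact (algebraMap k Ω).injective this
        · have := congrFun hpp (Fin.natAdd n j)
          simp only [Fin.append_right] at this
          exact (algebraMap k Ω).injective this
    have hq : 0 < Fintype.card k := Fintype.card_pos
    have h3 : ((Finset.filter (fun f => MvPolynomial.eval f Q = 0)
          (Fintype.piFinset fun _ : Fin (n + n) => Finset.univ.image (algebraMap k Ω))).card : ℚ≥0) *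
          (Fintype.card k : ℚ≥0) ≤ Q.totalDegree * (Fintype.card k : ℚ≥0) ^ (n + n) := by
      have hq' : (0 : ℚ≥0) < (Fintype.card k : ℚ≥0) := by exact_mod_cast hq
      rw [div_le_div_iff₀ (by positivity) hq'] at h
      exact h
    have h4 : (Finset.filter (fun f => MvPolynomial.eval f Q = 0)
          (Fintype.piFinset fun _ : Fin (n + n) => Finset.univ.image (algebraMap k Ω))).card *
          Fintype.card k ≤ Q.totalDegree * Fintype.card k ^ (n + n) := by
      exact_mod_cast h3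
    exact (Nat.mul_le_mul_right _ h2).trans h4
  · intro h5
    exact hp (Finset.mem_filter.2 ⟨Finset.mem_univ _, h5⟩)

/-- the points on lines -/
theorem cnt (H : (Fin n → k) → Prop) :
    ∑ p : (Fin n → k) × (Fin n → k), {x : k | H (fun j => p.1 j + x * p.2 j)}.ncard =
      Fintype.card k ^ (n + 1) * {t | H t}.ncard := by
  classical
  have h1 : ∀ {α : Type} [Fintype α] (P : α → Prop), {x | P x}.ncard =
      ∑ x, if P x then 1 else 0 := by
    intro α _ P
    rw [Set.ncard_eq_toFinset_card', Set.toFinset_ofPred, Finset.card_filter]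
  simp only [h1]
  rw [Fintype.sum_prod_type_right]
  have h2 : ∀ v : Fin n → k, ∑ y : Fin n → k, ∑ x : k,
      (if H (fun j => y j + x * v j) then 1 else 0) = Fintype.card k *
        ∑ t : Fin n → k, if H t then 1 else 0 := by
    intro v
    rw [Finset.sum_comm]
    have h3 : ∀ x : k, ∑ y : Fin n → k, (if H (fun j => y j + x * v j) then 1 else 0) =
        ∑ t : Fin n → k, if H t then 1 else 0 := by
      intro x
      exact Fintype.sum_equiv (Equiv.addRight (fun j => x * v j)) _ _ fun y => rfl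
    rw [Finset.sum_congr rfl fun x _ => h3 x]
    simp
  rw [Finset.sum_congr rfl fun v _ => h2 v]
  simp only [Finset.sum_const, Finset.card_univ, Fintype.card_fun, Fintype.card_fin, smul_eq_mul]
  ring

end count

/-- **The density theorem.** -/
theorem main (hNF : S_NF) (hTSZ : S_TSZ) (hONE : S_ONE) : S_FCH := by
  classical
  intro e n d R he
  obtain ⟨DR, hDR⟩ : ∃ DR, ∀ i, (R.R i).totalDegree ≤ DR :=
    ⟨∑ i, (R.R i).totalDegree, fun i => Finset.single_le_sum
      (f := fun i => (R.R i).totalDegree) (fun _ _ => Nat.zero_le _) (Finset.mem_univ i)⟩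
  obtain ⟨B, hBd⟩ : ∃ B, B = DR * (d + 1) := ⟨_, rfl⟩
  obtain ⟨J, hJ, Δ, hΔ⟩ := hNF e.factorial B (Nat.factorial_pos e)
  have := Fintype.ofFinite J
  obtain ⟨D1, hD1⟩ : ∃ D1, ∀ j, (Δ j).totalDegree ≤ D1 :=
    ⟨∑ j, (Δ j).totalDegree, fun j => Finset.single_le_sum
      (f := fun j => (Δ j).totalDegree) (fun _ _ => Nat.zero_le _) (Finset.mem_univ j)⟩
  obtain ⟨C₀, hC₀⟩ := hONE e R d he
  obtain ⟨B1, hB1⟩ : ∃ B1, B1 = D1 * B := ⟨_, rfl⟩
  refine ⟨4 * B1 + 16 * C₀ ^ 2 + C₀ + 1, ?_⟩
  intro k Ω _ _ _ _ _ _ f hf hq hex σ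
  have hB : ∀ i, Fl B (cc R.R f i) := fun i => (cc_fl R.R f hf i).mono (by
    rw [hBd]
    exact Nat.mul_le_mul_right _ (hDR i))
  have hchar : ringChar k ≤ Fintype.card k := by
    have h1 : ringChar k ∣ Fintype.card k := by
      apply ringChar.dvd
      exact FiniteField.cast_card_eq_zero k
    exact Nat.le_of_dvd Fintype.card_pos h1
  obtain ⟨y0, v0, ω0, h0⟩ := hex
  rw [irr_iff R.R f Δ (hΔ Ω) hB] at h0
  obtain ⟨j, hj⟩ := h0
  have hne : dd R.R f (Δ j) ≠ 0 := by
    intro h
    rw [h, map_zero] at hj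
    exact hj rfl
  have htd : (dd R.R f (Δ j)).totalDegree ≤ B1 := by
    rw [hB1]
    exact (dd_td R.R f (Δ j) hB).trans (Nat.mul_le_mul_right _ (hD1 j))
  obtain ⟨ω, hω, hQ⟩ := hTSZ k Ω e (n + n) σ (dd R.R f (Δ j)) hne (by omega)
  obtain ⟨Q, hQd⟩ : ∃ Q : MvPolynomial (Fin (n + n)) Ω, Q = MvPolynomial.eval₂
    (MvPolynomial.C.comp (algebraMap k Ω)) (Sum.elim MvPolynomial.X
      (fun i => MvPolynomial.C (ω i))) (dd R.R f (Δ j)) := ⟨_, rfl⟩
  rw [← hQd] at hQ
  have hQtd : Q.totalDegree ≤ B1 := by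
    rw [hQd]
    have h1 := td_eval₂ (k := Ω) (τ := Fin (n + n)) (MvPolynomial.C.comp (algebraMap k Ω))
      (fun s => by simp) (Sum.elim MvPolynomial.X (fun i => MvPolynomial.C (ω i))) 1
      (fun s => by rcases s with s | s <;> simp) (dd R.R f (Δ j))
    rw [mul_one] at h1
    exact h1.trans htd
  have hQev : ∀ y v : Fin n → Ω, MvPolynomial.eval (Fin.append y v) Q =
      sp k y v ω (dd R.R f (Δ j)) := by
    intro y v
    rw [hQd, MvPolynomial.eval₂_comp_left]
    unfold sp
    rw [MvPolynomial.coe_eval₂Hom]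
    congr 1
    · ext a
      simp
    · funext s
      rcases s with s | s <;> simp
  obtain ⟨Bd, hBd1, hBd2⟩ := sz (k := k) Q hQ
  -- the good lines
  have hgood : ∀ p ∉ Bd, (Fintype.card k : ℝ) ≤ (e.factorial : ℝ) *
      (({x : k | HasType Ω (fun i => MvPolynomial.eval (fun j => p.1 j + x * p.2 j) (f i))
        σ}.ncard : ℕ) : ℝ) + C₀ * √(Fintype.card k : ℝ) := by
    intro p hp
    have h1 := hC₀ k Ω (fun i => ln (f i) p.1 p.2) σ ω (fun i => by
      unfold ln
      have h2 := filt (fun D (a : k[X]) => a.natDegree ≤ D) (fun _ => by simp)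
        (fun _ a b ha hb => (natDegree_add_le a b).trans (max_le ha hb))
        (fun _ _ a b ha hb => natDegree_mul_le.trans (Nat.add_le_add ha hb))
        (fun _ _ _ h ha => le_trans ha h) (by simp) (C : k →+* k[X]) (fun s => by simp)
        (fun j => C (p.1 j) + C (p.2 j) * X) 1 (fun j => by
          refine (natDegree_add_le _ _).trans (max_le (by simp) ?_)
          exact (natDegree_C_mul_le _ _).trans natDegree_X_le) (f i)
      rw [mul_one] at h2
      exact h2.trans (hf i)) (by omega) hω (by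
      have h3 : (fun i => (ln (f i) p.1 p.2).map (algebraMap k Ω)) = fun i =>
          ln (MvPolynomial.map (algebraMap k Ω) (f i)) (fun j => algebraMap k Ω (p.1 j))
            (fun j => algebraMap k Ω (p.2 j)) := by
        funext i
        exact ln_map _ _ _ _
      rw [h3, irr_iff R.R f Δ (hΔ Ω) hB]
      refine ⟨j, ?_⟩
      rw [← hQev]
      exact hBd2 p hp)
    simp only [ln_eval] at h1
    exact h1
  -- summation
  obtain ⟨N, hN⟩ : ∃ N : (Fin n → k) × (Fin n → k) → ℕ, ∀ p, N p =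
    {x : k | HasType Ω (fun i => MvPolynomial.eval (fun j => p.1 j + x * p.2 j) (f i))
        σ}.ncard := ⟨_, fun _ => rfl⟩
  have hcnt := cnt (k := k) (n := n) (fun t => HasType Ω (fun i => MvPolynomial.eval t (f i)) σ)
  simp only [← hN] at hcnt hgood
  obtain ⟨NT, hNT⟩ : ∃ NT : ℕ, NT =
    {t : Fin n → k | HasType Ω (fun i => MvPolynomial.eval t (f i)) σ}.ncard := ⟨_, rfl⟩
  rw [← hNT] at hcnt ⊢
  obtain ⟨q, hqd⟩ : ∃ q : ℕ, q = Fintype.card k := ⟨_, rfl⟩
  rw [← hqd] at hcnt hBd1 hgood hchar ⊢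
  have hq0 : 4 * B1 + 16 * C₀ ^ 2 + C₀ + 1 ≤ q := hq.trans hchar
  have hqpos : (0 : ℝ) < (q : ℝ) := by
    have : 0 < q := by omega
    exact_mod_cast this
  have hbad : 4 * (Bd.card : ℝ) ≤ (q : ℝ) ^ (n + n) := by
    have h1 : 4 * Bd.card * q ≤ q ^ (n + n) * q := by
      calc 4 * Bd.card * q = 4 * (Bd.card * q) := by ring
        _ ≤ 4 * (Q.totalDegree * q ^ (n + n)) := Nat.mul_le_mul_left _ hBd1
        _ ≤ 4 * (B1 * q ^ (n + n)) := by gcongr
        _ = (4 * B1) * q ^ (n + n) := by ring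
        _ ≤ q * q ^ (n + n) := Nat.mul_le_mul_right _ (by omega)
        _ = _ := by ring
    have h2 := Nat.le_of_mul_le_mul_right h1 (by omega)
    exact_mod_cast h2
  have hsq : 4 * ((C₀ : ℝ) * √(q : ℝ)) ≤ (q : ℝ) := by
    have h1 : ((4 * C₀ : ℕ) : ℝ) ≤ √(q : ℝ) := by
      apply Real.le_sqrt_of_sq_le
      have h2 : (4 * C₀) ^ 2 ≤ q := by nlinarith
      exact_mod_cast h2
    push_cast at h1
    have h3 := Real.mul_self_sqrt hqpos.le
    nlinarith [Real.sqrt_nonneg (q : ℝ)]
  have hcard : ((Bdᶜ.card : ℕ) : ℝ) = (q : ℝ) ^ (n + n) - Bd.card := by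
    have h1 : Bd.card + Bdᶜ.card = q ^ (n + n) := by
      rw [Finset.card_add_card_compl, Fintype.card_prod, Fintype.card_fun, Fintype.card_fin,
        ← pow_add, ← hqd]
    have h2 : (Bd.card : ℝ) + (Bdᶜ.card : ℝ) = (q : ℝ) ^ (n + n) := by exact_mod_cast h1
    linarith
  have hsum : ((q : ℝ) ^ (n + n) - Bd.card) * ((q : ℝ) - C₀ * √(q : ℝ)) ≤
      (e.factorial : ℝ) * ((q : ℝ) ^ (n + 1) * NT) := by
    have h1 : ∑ p ∈ Bdᶜ, ((q : ℝ) - C₀ * √(q : ℝ)) ≤ ∑ p ∈ Bdᶜ, (e.factorial : ℝ) * (N p : ℝ) := by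
      refine Finset.sum_le_sum fun p hp => ?_
      have := hgood p (Finset.mem_compl.1 hp)
      linarith
    have h2 : ∑ p ∈ Bdᶜ, (e.factorial : ℝ) * (N p : ℝ) ≤ ∑ p, (e.factorial : ℝ) * (N p : ℝ) :=
      Finset.sum_le_univ_sum_of_nonneg fun p => by positivity
    have h3 : ∑ p, (e.factorial : ℝ) * (N p : ℝ) = (e.factorial : ℝ) *
        ((q : ℝ) ^ (n + 1) * NT) := by
      rw [← Finset.mul_sum]
      congr 1
      exact_mod_cast hcnt
    rw [Finset.sum_const, nsmul_eq_mul, hcard] at h1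
    linarith
  have hfin : (q : ℝ) ^ n * (q : ℝ) ^ (n + 1) ≤
      (2 * (e.factorial : ℝ) * NT) * (q : ℝ) ^ (n + 1) := by
    have h1 : (3 / 4 * (q : ℝ) ^ (n + n)) * (3 / 4 * (q : ℝ)) ≤
        ((q : ℝ) ^ (n + n) - Bd.card) * ((q : ℝ) - C₀ * √(q : ℝ)) := by
      refine mul_le_mul (by linarith) (by linarith) (by positivity) ?_
      have : (0 : ℝ) ≤ (q : ℝ) ^ (n + n) := by positivity
      linarith
    have h2 : (3 / 4 * (q : ℝ) ^ (n + n)) * (3 / 4 * (q : ℝ)) =
        9 / 16 * ((q : ℝ) ^ n * (q : ℝ) ^ (n + 1)) := by ring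
    have h3 : (0 : ℝ) ≤ (q : ℝ) ^ n * (q : ℝ) ^ (n + 1) := by positivity
    nlinarith
  have hlast := le_of_mul_le_mul_right hfin (by positivity)
  exact_mod_cast hlast

end Pool.Agent.N403.HX
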